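import Pool.Agent.H4.TA.Targets

/-!
# Slow growth of the partial sums (GRO)
-/

set_option autoImplicit false

open Finset Pool.Agent.H43.TC Pool.Agent.H4.TA

namespace Pool.Agent.H17.TAS

theorem pf_GRO : T_GRO := by
  intro C p hC hp hp0 hpb L e hL he
  set g : ℕ → ℝ := fun n => ∑ j ∈ range (n + 1), p j with hg
  have hmono : Monotone g := fun a b hab =>
    sum_le_sum_of_subset_of_nonneg (range_subset_range.2 (by omega)) fun j _ _ => hp j
  have hg1 : ∀ n, 1 ≤ g n := by
    intro n
    have := single_le_sum (f := p) (fun j _ => hp j) (mem_range.2 (Nat.succ_pos n))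
    rw [hp0] at this
    exact this
  have hLr : (1 : ℝ) ≤ L := by exact_mod_cast hL
  have hd : ∀ n, g (L * n) ≤ g n + C * L := by
    intro n
    have h1 : n + 1 ≤ L * n + 1 := by
      have := Nat.mul_le_mul_right n hL
      omega
    have h2 : g (L * n) = g n + ∑ j ∈ Ico (n + 1) (L * n + 1), p j := by
      change ∑ j ∈ range (L * n + 1), p j = ∑ j ∈ range (n + 1), p j + _
      rw [sum_range_add_sum_Ico _ h1]
    rw [h2]
    have h3 : ∀ j ∈ Ico (n + 1) (L * n + 1), p j ≤ C / (n + 1) := by
      intro j hj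
      rw [mem_Ico] at hj
      refine (hpb j).trans ?_
      have : ((n : ℝ) + 1) ≤ j + 1 := by
        have : n ≤ j := by omega
        have : (n : ℝ) ≤ j := by exact_mod_cast this
        linarith
      gcongr
    have h4 := sum_le_sum h3
    rw [sum_const, Nat.card_Ico, nsmul_eq_mul] at h4
    have h5 : ((L * n + 1 - (n + 1) : ℕ) : ℝ) ≤ L * (n + 1) := by
      have : L * n + 1 - (n + 1) ≤ L * (n + 1) := by
        rw [Nat.mul_add]
        omega
      exact_mod_cast this
    have h6 : (0 : ℝ) < n + 1 := by positivity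
    have h7 : ((L * n + 1 - (n + 1) : ℕ) : ℝ) * (C / (n + 1)) ≤ L * (n + 1) * (C / (n + 1)) :=
      mul_le_mul_of_nonneg_right h5 (by positivity)
    have h8 : (L : ℝ) * (n + 1) * (C / (n + 1)) = C * L := by field_simp
    linarith
  by_cases hc : ∃ n₁, C * L / e ≤ g n₁
  · obtain ⟨n₁, h1⟩ := hc
    refine ⟨n₁, fun n hn => ?_⟩
    have h2 : C * L / e ≤ g n := h1.trans (hmono hn)
    rw [div_le_iff₀ he] at h2
    have := hd n
    change g (L * n) ≤ (1 + e) * g n
    nlinarith
  · push Not at hc
    have hb : BddAbove (Set.range g) := ⟨C * L / e, by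
      rintro x ⟨n, rfl⟩
      exact (hc n).le⟩
    have ht := tendsto_atTop_ciSup hmono hb
    have hcau := ht.cauchySeq
    rw [Metric.cauchySeq_iff'] at hcau
    obtain ⟨n₀, h0⟩ := hcau e he
    refine ⟨n₀, fun n hn => ?_⟩
    have h1 := h0 (L * n) (hn.trans (Nat.le_mul_of_pos_left n hL))
    rw [Real.dist_eq, abs_lt] at h1
    have h2 := hmono hn
    have h3 := hg1 n
    change g (L * n) ≤ (1 + e) * g n
    nlinarith

end Pool.Agent.H17.TAS
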