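import Pool.Agent.H4.TA.Targets

/-!
# Logarithmic convexity (LGC)
-/

set_option autoImplicit false

open Finset Pool.Agent.H43.TC Pool.Agent.H4.TA

namespace Pool.Agent.H17.TAS

lemma logconv (S : ℕ → ℕ) (hS : ∀ r, S (r + 1) ^ 2 ≤ S r * S (r + 2)) (r : ℕ) (hr : 1 ≤ r) :
    S 1 ^ r ≤ S r * S 0 ^ (r - 1) := by
  rcases Nat.eq_zero_or_pos (S 1) with h1 | h1
  · rw [h1, zero_pow (by omega)]
    exact Nat.zero_le _
  · have hpos1 : ∀ r, 0 < S (r + 1) := by
      intro r
      induction r with
      | zero => exact h1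
      | succ r ih =>
        rcases Nat.eq_zero_or_pos (S (r + 1 + 1)) with h | h
        · have := hS r
          rw [show r + 2 = r + 1 + 1 by ring, h, mul_zero] at this
          have h2 : 0 < S (r + 1) ^ 2 := pow_pos ih 2
          omega
        · exact h
    have h0 : 0 < S 0 := by
      rcases Nat.eq_zero_or_pos (S 0) with h | h
      · have := hS 0
        rw [h, zero_mul] at this
        have h2 : 0 < S (0 + 1) ^ 2 := pow_pos (hpos1 0) 2
        omega
      · exact h
    have hpos : ∀ r, 0 < S r := by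
      intro r
      rcases r with _ | r
      · exact h0
      · exact hpos1 r
    have hq : ∀ r, S r * S 1 ≤ S (r + 1) * S 0 := by
      intro r
      induction r with
      | zero => rw [Nat.mul_comm]
      | succ r ih =>
        refine Nat.le_of_mul_le_mul_left ?_ (hpos r)
        calc S r * (S (r + 1) * S 1) = S (r + 1) * (S r * S 1) := by ring
          _ ≤ S (r + 1) * (S (r + 1) * S 0) := Nat.mul_le_mul_left _ ih
          _ = S (r + 1) ^ 2 * S 0 := by ring
          _ ≤ S r * S (r + 2) * S 0 := Nat.mul_le_mul_right _ (hS r)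
          _ = S r * (S (r + 1 + 1) * S 0) := by ring
    induction r, hr using Nat.le_induction with
    | base => simp
    | succ r hr ih =>
      obtain ⟨m, rfl⟩ : ∃ m, r = m + 1 := ⟨r - 1, by omega⟩
      simp only [Nat.add_sub_cancel] at ih ⊢
      calc S 1 ^ (m + 1 + 1) = S 1 ^ (m + 1) * S 1 := pow_succ _ _
        _ ≤ S (m + 1) * S 0 ^ m * S 1 := Nat.mul_le_mul_right _ ih
        _ = S 0 ^ m * (S (m + 1) * S 1) := by ring
        _ ≤ S 0 ^ m * (S (m + 1 + 1) * S 0) := Nat.mul_le_mul_left _ (hq (m + 1))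
        _ = S (m + 1 + 1) * S 0 ^ (m + 1) := by ring

theorem pf_LGC (hSPT : T_SPT) : T_LGC := by
  intro G _ _ k s c b h r hr
  let S : ℕ → ℕ := fun r => ∑ x, walks s c b (2 * h * r) x
  have hS : ∀ r, S (r + 1) ^ 2 ≤ S r * S (r + 2) := by
    intro r
    have e1 : S (r + 1) = ∑ x, walks s c b (h * r) x * walks s c b (h * (r + 2)) x := by
      rw [← hSPT]
      change ∑ x, walks s c b (2 * h * (r + 1)) x = _
      rw [show 2 * h * (r + 1) = h * r + h * (r + 2) by ring]
    have e2 : ∀ r, S r = ∑ x, walks s c b (h * r) x ^ 2 := by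
      intro r
      have := hSPT G k s c b (h * r) (h * r)
      change ∑ x, walks s c b (2 * h * r) x = _
      rw [show 2 * h * r = h * r + h * r by ring, this]
      exact sum_congr rfl fun x _ => (sq _).symm
    rw [e1, e2 r, e2 (r + 2)]
    exact sum_mul_sq_le_sq_mul_sq _ _ _
  have h0 : S 0 = (univ.filter (fun x => c x = b)).card := by
    change ∑ x, walks s c b (2 * h * 0) x = _
    rw [mul_zero, card_filter]
    rfl
  have h1 : S 1 = ∑ x, walks s c b (2 * h) x := by
    change ∑ x, walks s c b (2 * h * 1) x = _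
    rw [mul_one]
  have := logconv S hS r hr
  rw [h0, h1] at this
  exact this

end Pool.Agent.H17.TAS
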