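import Pool.Agent.H4.TA.Targets

/-!
# Properties of the mean number of points (RGR)
-/

set_option autoImplicit false

open Finset Pool.Agent.H43.TC Pool.Agent.H4.TA

namespace Pool.Agent.H17.TAS

theorem pf_RGR (hRNW : T_RNW) (hAVQ : T_AVQ) (hSL1 : T_SL1) (hSL2 : T_SL2) (hEIN : T_EIN) :
    T_RGR := by
  intro k hk
  have hR := hRNW k hk
  have e : ∀ t, rng k t = ∑ s ∈ range (t + 1), qq k s := by
    intro t
    unfold rng
    exact sum_congr rfl fun s _ => (hAVQ k s (by omega)).symm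
  obtain ⟨s1, s2⟩ := hSL1 _ _ _ hR
  refine ⟨fun t => ?_, fun B => ?_, fun M d hM hd => ?_⟩
  · rw [e]
    have := single_le_sum (f := qq k) (fun j _ => hR.qn j) (mem_range.2 (Nat.succ_pos t))
    rw [hR.q0] at this
    exact this
  · obtain ⟨t₀, h⟩ := hEIN _ _ _ hR B
    refine ⟨t₀, fun t ht => ?_⟩
    rw [e]
    exact h t ht
  · obtain ⟨t₀, h⟩ := (hSL2 _ hR.qa s1 s2).2 M d hM hd
    refine ⟨t₀, fun t m ht hm hm' => ?_⟩
    rw [e, e]
    exact h t m ht hm hm'

end Pool.Agent.H17.TAS
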